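import Pool.Agent.Lib.MP_d46290_lc.Final

/-!
# The degrees of tardy sets collapse at level three (MP_d46290_lc)

Every very tardy c.e. set is Turing equivalent to a 3-tardy set. Hence for every `n ≥ 3` every
`(n+1)`-tardy set is computed by an `n`-tardy set, and the statement of Q1 is false.
-/

open Tardy

/-- (1) Every very tardy set is Turing equivalent to a 3-tardy set. (2) For every `n ≥ 3`, every
`(n+1)`-tardy set is Turing reducible to an `n`-tardy set. (3) The statement of Q1 is false.
(4) The notions do not depend on the enumeration of the set. -/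
theorem Pool.Agent.Results.MP_d46290_lc.TardyDegreesCollapse.result :
    (∀ A : Set ℕ, VeryTardy A → ∃ B : Set ℕ, IsTardy 3 B ∧ TuringRed A B ∧ TuringRed B A) ∧
    (∀ n : ℕ, 3 ≤ n → ∀ A : Set ℕ, IsTardy (n + 1) A → ∃ B : Set ℕ, IsTardy n B ∧
      TuringRed A B ∧ TuringRed B A) ∧
    (¬ Question) ∧
    (∀ (A : Set ℕ) (E E' : ℕ → List ℕ), Enumerates E A → Enumerates E' A →
      (∀ n : ℕ, TardyFor n A E ↔ TardyFor n A E') ∧ (PromptFor A E ↔ PromptFor A E')) := by
  refine ⟨fun A hA => veryTardy_equiv hA, fun n hn A hA => ?_, not_question,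
    fun A E E' hE hE' => ⟨fun n => ⟨tardyFor_congr hE' hE, tardyFor_congr hE hE'⟩,
      promptFor_congr hE hE', promptFor_congr hE' hE⟩⟩
  obtain ⟨B, hB, h1, h2⟩ := veryTardy_equiv (hA.veryTardy (by omega))
  exact ⟨B, hB.of_three hn, h1, h2⟩
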